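import Mathlib

/-!
# The Laplacian spread inequality: the combinatorial core

Let `N` be the neighbourhoods of a graph `G`, `M` those of its complement, `y` an eigenvector of
the Laplacian of `G` with eigenvalue `mu`, `x` one of the Laplacian of the complement with
eigenvalue `nu`, both nonzero and with sum zero. If `mu, nu < 1` then
`n (1 - nu) + nu ^ 2 + n (1 - mu) + mu ^ 2 ≤ n`, with a further gain from the minimum degrees.
-/

set_option autoImplicit false
open Finset

namespace Pool.Agent.Helper122LS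

variable {V : Type*} [Fintype V] [DecidableEq V]

omit [Fintype V] [DecidableEq V] in
lemma near_max (K : V → Finset V) (z : V → ℝ) (l : ℝ)
    (heq : ∀ i, ∑ j ∈ K i, (z i - z j) = l * z i) (T : V) (hT : ∀ j, z j ≤ z T) (j : V)
    (hj : j ∈ K T) : z T - z j ≤ l * z T := by
  rw [← heq T]
  exact single_le_sum (f := fun j => z T - z j) (fun i _ => sub_nonneg.2 (hT i)) hj

omit [Fintype V] [DecidableEq V] in
lemma near_min (K : V → Finset V) (z : V → ℝ) (l : ℝ)
    (heq : ∀ i, ∑ j ∈ K i, (z i - z j) = l * z i) (L : V) (hL : ∀ j, z L ≤ z j) (j : V)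
    (hj : j ∈ K L) : z j - z L ≤ l * (- z L) := by
  have h := near_max K (fun i => - z i) l (fun i => by
    have := heq i
    calc ∑ j ∈ K i, (-z i - -z j) = - ∑ j ∈ K i, (z i - z j) := by
          rw [← sum_neg_distrib]; exact sum_congr rfl fun j _ => by ring
      _ = l * -z i := by rw [this]; ring) L (fun j => neg_le_neg (hL j)) j hj
  have h' : -z L - -z j ≤ l * -z L := h
  linarith

theorem core1 (M N : V → Finset V)
    (hun : ∀ i j, j ≠ i → j ∈ M i ∨ j ∈ N i) (hdis : ∀ i, Disjoint (M i) (N i))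
    (hMs : ∀ i, i ∉ M i) (hNs : ∀ i, i ∉ N i)
    (x : V → ℝ) (nu del : ℝ) (hnu : nu < 1)
    (heq : ∀ i, ∑ j ∈ M i, (x i - x j) = nu * x i)
    (R L T B : V) (hdT : del ≤ ((N T).card : ℝ)) (hdB : del ≤ ((N B).card : ℝ)) (hR : ∀ j, x j ≤ x R) (hL : ∀ j, x L ≤ x j) (hRp : 0 < x R) (hLn : x L < 0)
    (hTL : T ∈ M L) (hBR : B ∈ M R) (hTB : T ≠ B) (hBT : B ∉ N T) (hTB' : T ∉ N B)
    (hd : Disjoint (N T) (N B)) :
    (Fintype.card V : ℝ) * (1 - nu) + nu ^ 2 + nu * (del - 1) ≤
      (((N T \ M L) ∪ (N B \ M R)).card : ℝ) := by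
  classical
  -- the equations as sums over `N`
  have hsum : ∀ i, (Fintype.card V : ℝ) * x i - ∑ j, x j - ∑ j ∈ N i, (x i - x j) = nu * x i := by
    intro i
    have hU : (univ : Finset V) = insert i (M i ∪ N i) := by
      ext j
      simp only [mem_univ, mem_insert, mem_union, true_iff]
      by_cases hj : j = i
      · exact Or.inl hj
      · exact Or.inr (hun i j hj)
    have h1 : ∑ j, (x i - x j) = ∑ j ∈ M i, (x i - x j) + ∑ j ∈ N i, (x i - x j) := by
      rw [hU, sum_insert, sum_union (hdis i)]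
      · ring
      · simp only [mem_union, not_or]
        exact ⟨hMs i, hNs i⟩
    have h2 : ∑ j, (x i - x j) = (Fintype.card V : ℝ) * x i - ∑ j, x j := by
      rw [sum_sub_distrib, sum_const, card_univ, nsmul_eq_mul]
    rw [← heq i]
    linarith
  have hT := hsum T
  have hB := hsum B
  set n : ℝ := (Fintype.card V : ℝ) with hn
  have heT : x T - x L ≤ nu * (- x L) := near_min M x nu heq L hL T hTL
  have heB : x R - x B ≤ nu * x R := near_max M x nu heq R hR B hBR
  have heT0 : 0 ≤ x T - x L := sub_nonneg.2 (hL T)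
  have heB0 : 0 ≤ x R - x B := sub_nonneg.2 (hR B)
  -- sums over `N T`
  have hNT : ∑ j ∈ N T, (x j - x T) ≤
      ((N T \ M L).card : ℝ) * (x R - x T) +
        (nu * (- x L) - (1 + ((N T ∩ M L).card : ℝ)) * (x T - x L)) := by
    rw [← sum_inter_add_sum_sdiff (N T) (M L)]
    have h1 : ∑ j ∈ N T \ M L, (x j - x T) ≤ ((N T \ M L).card : ℝ) * (x R - x T) := by
      rw [← nsmul_eq_mul]
      exact sum_le_card_nsmul _ _ _ fun j _ => sub_le_sub_right (hR j) _
    have h2 : ∑ j ∈ N T ∩ M L, (x j - x T) ≤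
        nu * (- x L) - (1 + ((N T ∩ M L).card : ℝ)) * (x T - x L) := by
      have h3 : ∑ j ∈ N T ∩ M L, (x j - x T) =
          ∑ j ∈ N T ∩ M L, (x j - x L) - ((N T ∩ M L).card : ℝ) * (x T - x L) := by
        rw [← nsmul_eq_mul, ← sum_const, ← sum_sub_distrib]
        exact sum_congr rfl fun j _ => by ring
      have h4 : (x T - x L) + ∑ j ∈ N T ∩ M L, (x j - x L) ≤ ∑ j ∈ M L, (x j - x L) := by
        have hnm : T ∉ N T ∩ M L := fun h => hNs T (mem_inter.1 h).1
        rw [← sum_insert (f := fun j => x j - x L) hnm]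
        refine sum_le_sum_of_subset_of_nonneg (fun j hj => ?_) fun j _ _ => sub_nonneg.2 (hL j)
        rcases mem_insert.1 hj with rfl | h
        · exact hTL
        · exact (mem_inter.1 h).2
      have h5 : ∑ j ∈ M L, (x j - x L) = nu * (- x L) := by
        have := heq L
        calc ∑ j ∈ M L, (x j - x L) = - ∑ j ∈ M L, (x L - x j) := by
              rw [← sum_neg_distrib]; exact sum_congr rfl fun j _ => by ring
          _ = nu * (- x L) := by rw [this]; ring
      rw [h3]
      linarith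
    linarith
  have hNB : ∑ j ∈ N B, (x B - x j) ≤
      ((N B \ M R).card : ℝ) * (x B - x L) +
        (nu * x R - (1 + ((N B ∩ M R).card : ℝ)) * (x R - x B)) := by
    rw [← sum_inter_add_sum_sdiff (N B) (M R)]
    have h1 : ∑ j ∈ N B \ M R, (x B - x j) ≤ ((N B \ M R).card : ℝ) * (x B - x L) := by
      rw [← nsmul_eq_mul]
      exact sum_le_card_nsmul _ _ _ fun j _ => sub_le_sub_left (hL j) _
    have h2 : ∑ j ∈ N B ∩ M R, (x B - x j) ≤
        nu * x R - (1 + ((N B ∩ M R).card : ℝ)) * (x R - x B) := by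
      have h3 : ∑ j ∈ N B ∩ M R, (x B - x j) =
          ∑ j ∈ N B ∩ M R, (x R - x j) - ((N B ∩ M R).card : ℝ) * (x R - x B) := by
        rw [← nsmul_eq_mul, ← sum_const, ← sum_sub_distrib]
        exact sum_congr rfl fun j _ => by ring
      have h4 : (x R - x B) + ∑ j ∈ N B ∩ M R, (x R - x j) ≤ ∑ j ∈ M R, (x R - x j) := by
        have hnm : B ∉ N B ∩ M R := fun h => hNs B (mem_inter.1 h).1
        rw [← sum_insert (f := fun j => x R - x j) hnm]
        refine sum_le_sum_of_subset_of_nonneg (fun j hj => ?_) fun j _ _ => sub_nonneg.2 (hR j)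
        rcases mem_insert.1 hj with rfl | h
        · exact hBR
        · exact (mem_inter.1 h).2
      rw [heq R] at h4
      rw [h3]
      linarith
    linarith
  -- cardinalities
  have hcardT : ((N T ∩ M L).card : ℝ) + ((N T \ M L).card : ℝ) = (N T).card := by
    exact_mod_cast card_inter_add_card_sdiff (N T) (M L)
  have hcardB : ((N B ∩ M R).card : ℝ) + ((N B \ M R).card : ℝ) = (N B).card := by
    exact_mod_cast card_inter_add_card_sdiff (N B) (M R)
  have htot : ((N T).card : ℝ) + (N B).card + 2 ≤ n := by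
    have h1 : (insert T (insert B (N T ∪ N B))).card = (N T).card + (N B).card + 2 := by
      rw [card_insert_of_notMem, card_insert_of_notMem, card_union_of_disjoint hd]
      · simp only [mem_union, not_or]; exact ⟨hBT, hNs B⟩
      · simp only [mem_insert, mem_union, not_or]; exact ⟨hTB, hNs T, hTB'⟩
    have h2 := card_le_univ (insert T (insert B (N T ∪ N B)))
    rw [h1] at h2
    rw [hn]
    exact_mod_cast h2
  have hS : (((N T \ M L) ∪ (N B \ M R)).card : ℝ) =
      ((N T \ M L).card : ℝ) + ((N B \ M R).card : ℝ) := by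
    have : Disjoint (N T \ M L) (N B \ M R) := hd.mono sdiff_subset sdiff_subset
    exact_mod_cast card_union_of_disjoint this
  rw [hS]
  have hneg : ∑ j ∈ N T, (x T - x j) = - ∑ j ∈ N T, (x j - x T) := by
    rw [← sum_neg_distrib]; exact sum_congr rfl fun j _ => by ring
  rw [hneg] at hT
  have ht0 : (0 : ℝ) ≤ ((N T).card : ℝ) := Nat.cast_nonneg _
  have hb0 : (0 : ℝ) ≤ ((N B).card : ℝ) := Nat.cast_nonneg _
  generalize ((N T \ M L).card : ℝ) = k1 at *
  generalize ((N T ∩ M L).card : ℝ) = k2 at *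
  generalize ((N B \ M R).card : ℝ) = l1 at *
  generalize ((N B ∩ M R).card : ℝ) = l2 at *
  generalize (∑ j ∈ N T, (x j - x T)) = sT at *
  generalize (∑ j ∈ N B, (x B - x j)) = sB at *
  generalize ((N T).card : ℝ) = t at *
  generalize ((N B).card : ℝ) = b at *
  generalize (∑ j, x j) = s at *
  generalize x T = xT at *
  generalize x B = xB at *
  generalize x R = c at *
  obtain ⟨d, hd'⟩ : ∃ d : ℝ, x L = - d := ⟨- x L, by ring⟩
  rw [hd'] at heT heT0 hNT hNB hLn
  clear_value n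
  subst hcardT
  subst hcardB
  have hdpos : 0 < d := by linarith
  have hC : 0 < c + d := by linarith
  have hnu0 : 0 ≤ nu := by
    by_contra hcon
    push Not at hcon
    have := mul_neg_of_neg_of_pos hcon hRp
    linarith
  have h1 : (n - nu - 1 - (k2 + k1)) * (xT + d) ≤ (n - nu - 1 - (k2 + k1)) * (nu * d) :=
    mul_le_mul_of_nonneg_left (by linarith) (by linarith)
  have h2 : (n - nu - 1 - (l2 + l1)) * (c - xB) ≤ (n - nu - 1 - (l2 + l1)) * (nu * c) :=
    mul_le_mul_of_nonneg_left (by linarith) (by linarith)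
  have h3 : (n - nu - 1 - (k2 + k1)) * (nu * d) ≤ (n - nu - 1 - del) * (nu * d) :=
    mul_le_mul_of_nonneg_right (by linarith) (mul_nonneg hnu0 hdpos.le)
  have h4 : (n - nu - 1 - (l2 + l1)) * (nu * c) ≤ (n - nu - 1 - del) * (nu * c) :=
    mul_le_mul_of_nonneg_right (by linarith) (mul_nonneg hnu0 hRp.le)
  have hkey : (c + d) * ((n * (1 - nu) + nu ^ 2 + nu * (del - 1)) - (k1 + l1)) ≤ 0 := by
    linarith
  by_contra hcon
  push Not at hcon
  have : 0 < (c + d) * ((n * (1 - nu) + nu ^ 2 + nu * (del - 1)) - (k1 + l1)) :=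
    mul_pos hC (by linarith)
  linarith

theorem corners_aux (M N : V → Finset V)
    (hMsym : ∀ i j, j ∈ M i → i ∈ M j) (hNsym : ∀ i j, j ∈ N i → i ∈ N j)
    (hun : ∀ i j, j ≠ i → j ∈ M i ∨ j ∈ N i) (hdis : ∀ i, Disjoint (M i) (N i))
    (hMs : ∀ i, i ∉ M i) (hNs : ∀ i, i ∉ N i)
    (x y : V → ℝ) (nu mu del eps : ℝ) (hnu : nu < 1) (hmu : mu < 1)
    (hdel : ∀ i, (N i).Nonempty → del ≤ ((N i).card : ℝ))
    (heps : ∀ i, (M i).Nonempty → eps ≤ ((M i).card : ℝ))
    (hx : ∀ i, ∑ j ∈ M i, (x i - x j) = nu * x i)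
    (hy : ∀ i, ∑ j ∈ N i, (y i - y j) = mu * y i)
    (R L T B : V) (hR : ∀ j, x j ≤ x R) (hL : ∀ j, x L ≤ x j) (hRp : 0 < x R) (hLn : x L < 0)
    (hT : ∀ j, y j ≤ y T) (hB : ∀ j, y B ≤ y j) (hTp : 0 < y T) (hBn : y B < 0)
    (hRT : R ∈ N T) :
    ((Fintype.card V : ℝ) * (1 - nu) + nu ^ 2 + nu * (del - 1)) +
      ((Fintype.card V : ℝ) * (1 - mu) + mu ^ 2 + mu * (eps - 1)) ≤ (Fintype.card V : ℝ) := by
  classical
  have hNTp : ∀ j ∈ N T, 0 < y j := fun j hj => by
    have := near_max N y mu hy T hT j hj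
    have h2 : 0 < (1 - mu) * y T := mul_pos (by linarith) hTp
    nlinarith
  have hNBn : ∀ j ∈ N B, y j < 0 := fun j hj => by
    have := near_min N y mu hy B hB j hj
    have h2 : 0 < (1 - mu) * (- y B) := mul_pos (by linarith) (by linarith)
    nlinarith
  have hMRp : ∀ j ∈ M R, 0 < x j := fun j hj => by
    have := near_max M x nu hx R hR j hj
    have h2 : 0 < (1 - nu) * x R := mul_pos (by linarith) hRp
    nlinarith
  have hMLn : ∀ j ∈ M L, x j < 0 := fun j hj => by
    have := near_min M x nu hx L hL j hj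
    have h2 : 0 < (1 - nu) * (- x L) := mul_pos (by linarith) (by linarith)
    nlinarith
  have hyR : 0 < y R := hNTp R hRT
  have hdN : Disjoint (N T) (N B) := by
    rw [disjoint_left]
    intro j h1 h2
    exact lt_asymm (hNTp j h1) (hNBn j h2)
  have hdM : Disjoint (M L) (M R) := by
    rw [disjoint_left]
    intro j h1 h2
    exact lt_asymm (hMRp j h2) (hMLn j h1)
  have hBneR : B ≠ R := by rintro rfl; linarith
  have hBR : B ∈ M R := by
    rcases hun R B hBneR with h | h
    · exact h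
    · exact absurd (hNBn R (hNsym _ _ h)) (not_lt.2 hyR.le)
  have hxB : 0 < x B := hMRp B hBR
  have hBneL : B ≠ L := by rintro rfl; linarith
  have hLB : L ∈ N B := by
    rcases hun L B hBneL with h | h
    · exact absurd (hMLn B h) (not_lt.2 hxB.le)
    · exact hNsym _ _ h
  have hyL : y L < 0 := hNBn L hLB
  have hLneT : L ≠ T := by rintro rfl; linarith
  have hTL : T ∈ M L := by
    rcases hun T L hLneT with h | h
    · exact hMsym _ _ h
    · exact absurd (hNTp L h) (not_lt.2 hyL.le)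
  have hTB : T ≠ B := by rintro rfl; linarith
  have hLneR : L ≠ R := by rintro rfl; linarith
  have hBT : B ∉ N T := fun h => absurd (hNTp B h) (not_lt.2 hBn.le)
  have hTB' : T ∉ N B := fun h => absurd (hNBn T h) (not_lt.2 hTp.le)
  have hRL : R ∉ M L := fun h => absurd (hMLn R h) (not_lt.2 hRp.le)
  have hLR : L ∉ M R := fun h => absurd (hMRp L h) (not_lt.2 hLn.le)
  have h1 := core1 M N hun hdis hMs hNs x nu del hnu hx R L T B (hdel T ⟨R, hRT⟩) (hdel B ⟨L, hLB⟩)
    hR hL hRp hLn hTL hBR hTB hBT hTB' hdN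
  have h2 := core1 N M (fun i j h => (hun i j h).symm) (fun i => (hdis i).symm) hNs hMs y mu eps hmu
    hy T B L R (heps L ⟨T, hTL⟩) (heps R ⟨B, hBR⟩) hT hB hTp hBn hLB hRT hLneR hRL hLR hdM
  have h3 : Disjoint ((N T \ M L) ∪ (N B \ M R)) ((M L \ N B) ∪ (M R \ N T)) := by
    rw [disjoint_left]
    intro j hj
    simp only [mem_union, mem_sdiff] at hj ⊢
    tauto
  have h4 : ((((N T \ M L) ∪ (N B \ M R)).card : ℝ) + (((M L \ N B) ∪ (M R \ N T)).card : ℝ)) ≤
      (Fintype.card V : ℝ) := by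
    have := card_le_univ (((N T \ M L) ∪ (N B \ M R)) ∪ ((M L \ N B) ∪ (M R \ N T)))
    rw [card_union_of_disjoint h3] at this
    exact_mod_cast this
  linarith

omit [DecidableEq V] in
lemma exists_max_pos (x : V → ℝ) (hx : x ≠ 0) (hs : ∑ i, x i = 0) :
    ∃ R, (∀ j, x j ≤ x R) ∧ 0 < x R := by
  have hne : (univ : Finset V).Nonempty := by
    obtain ⟨i, _⟩ := Function.ne_iff.1 hx
    exact ⟨i, mem_univ i⟩
  obtain ⟨R, _, hR⟩ := exists_max_image univ x hne
  refine ⟨R, fun j => hR j (mem_univ j), ?_⟩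
  by_contra hcon
  push Not at hcon
  have h0 : ∀ i ∈ (univ : Finset V), x i ≤ 0 := fun i hi => (hR i hi).trans hcon
  have := (sum_eq_zero_iff_of_nonpos h0).1 hs
  exact hx (funext fun i => this i (mem_univ i))

omit [DecidableEq V] in
lemma exists_min_neg (x : V → ℝ) (hx : x ≠ 0) (hs : ∑ i, x i = 0) :
    ∃ L, (∀ j, x L ≤ x j) ∧ x L < 0 := by
  obtain ⟨L, h1, h2⟩ := exists_max_pos (fun i => - x i) (fun h => hx (funext fun i => by
    have := congrFun h i
    simp only [Pi.zero_apply, neg_eq_zero] at this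
    simpa using this)) (by rw [sum_neg_distrib, hs, neg_zero])
  exact ⟨L, fun j => by have := h1 j; linarith, by linarith⟩

theorem core2 (M N : V → Finset V)
    (hMsym : ∀ i j, j ∈ M i → i ∈ M j) (hNsym : ∀ i j, j ∈ N i → i ∈ N j)
    (hun : ∀ i j, j ≠ i → j ∈ M i ∨ j ∈ N i) (hdis : ∀ i, Disjoint (M i) (N i))
    (hMs : ∀ i, i ∉ M i) (hNs : ∀ i, i ∉ N i)
    (x y : V → ℝ) (nu mu del eps : ℝ) (hnu : nu < 1) (hmu : mu < 1)
    (hdel : ∀ i, (N i).Nonempty → del ≤ ((N i).card : ℝ))
    (heps : ∀ i, (M i).Nonempty → eps ≤ ((M i).card : ℝ))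
    (hx : ∀ i, ∑ j ∈ M i, (x i - x j) = nu * x i)
    (hy : ∀ i, ∑ j ∈ N i, (y i - y j) = mu * y i)
    (hx0 : x ≠ 0) (hy0 : y ≠ 0) (hxs : ∑ i, x i = 0) (hys : ∑ i, y i = 0) :
    ((Fintype.card V : ℝ) * (1 - nu) + nu ^ 2 + nu * (del - 1)) +
      ((Fintype.card V : ℝ) * (1 - mu) + mu ^ 2 + mu * (eps - 1)) ≤ (Fintype.card V : ℝ) := by
  obtain ⟨R, hR, hRp⟩ := exists_max_pos x hx0 hxs
  obtain ⟨L, hL, hLn⟩ := exists_min_neg x hx0 hxs
  obtain ⟨T, hT, hTp⟩ := exists_max_pos y hy0 hys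
  obtain ⟨B, hB, hBn⟩ := exists_min_neg y hy0 hys
  by_cases hRT : R ∈ N T
  · exact corners_aux M N hMsym hNsym hun hdis hMs hNs x y nu mu del eps hnu hmu hdel heps hx hy
      R L T B hR hL hRp hLn hT hB hTp hBn hRT
  · have hxT : 0 < x T := by
      by_cases h : R = T
      · rw [← h]; exact hRp
      · rcases hun T R h with h' | h'
        · have := near_max M x nu hx R hR T (hMsym _ _ h')
          have h2 : 0 < (1 - nu) * x R := mul_pos (by linarith) hRp
          nlinarith
        · exact absurd h' hRT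
    have hLneT : L ≠ T := by rintro rfl; linarith
    have hLT : L ∈ N T := by
      rcases hun T L hLneT with h | h
      · have := near_min M x nu hx L hL T (hMsym _ _ h)
        have h2 : 0 < (1 - nu) * (- x L) := mul_pos (by linarith) (by linarith)
        nlinarith
      · exact h
    refine corners_aux M N hMsym hNsym hun hdis hMs hNs (fun i => - x i) y nu mu del eps hnu hmu
      hdel heps (fun i => ?_) hy L R T B (fun j => neg_le_neg (hL j)) (fun j => neg_le_neg (hR j))
      (by linarith) (by linarith) hT hB hTp hBn hLT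
    have := hx i
    calc ∑ j ∈ M i, (-x i - -x j) = - ∑ j ∈ M i, (x i - x j) := by
          rw [← sum_neg_distrib]; exact sum_congr rfl fun j _ => by ring
      _ = nu * -x i := by rw [this]; ring

theorem core3 (M N : V → Finset V)
    (hMsym : ∀ i j, j ∈ M i → i ∈ M j) (hNsym : ∀ i j, j ∈ N i → i ∈ N j)
    (hun : ∀ i j, j ≠ i → j ∈ M i ∨ j ∈ N i) (hdis : ∀ i, Disjoint (M i) (N i))
    (hMs : ∀ i, i ∉ M i) (hNs : ∀ i, i ∉ N i)
    (x y : V → ℝ) (nu mu : ℝ) (hnu : 0 ≤ nu) (hmu : 0 ≤ mu)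
    (hx : ∀ i, ∑ j ∈ M i, (x i - x j) = nu * x i)
    (hy : ∀ i, ∑ j ∈ N i, (y i - y j) = mu * y i)
    (hx0 : x ≠ 0) (hy0 : y ≠ 0) (hxs : ∑ i, x i = 0) (hys : ∑ i, y i = 0) :
    1 ≤ nu + mu := by
  by_cases h1 : nu < 1
  · by_cases h2 : mu < 1
    · have h := core2 M N hMsym hNsym hun hdis hMs hNs x y nu mu 1 1 h1 h2
        (fun i hi => by exact_mod_cast card_pos.2 hi) (fun i hi => by exact_mod_cast card_pos.2 hi)
        hx hy hx0 hy0 hxs hys
      have hn : (0 : ℝ) < (Fintype.card V : ℝ) := by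
        obtain ⟨i, _⟩ := Function.ne_iff.1 hx0
        exact_mod_cast Fintype.card_pos_iff.2 ⟨i⟩
      have h3 : (Fintype.card V : ℝ) * (1 - nu - mu) ≤ 0 := by nlinarith [sq_nonneg nu, sq_nonneg mu]
      by_contra hcon
      push Not at hcon
      have := mul_pos hn (show 0 < 1 - nu - mu by linarith)
      linarith
    · linarith
  · linarith

end Pool.Agent.Helper122LS
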