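import Mathlib

/-!
# The minimum of a weighted Laplacian Rayleigh quotient on zero-sum vectors is an eigenvalue
-/

set_option autoImplicit false
open Finset

namespace Pool.Agent.Helper122LS

lemma lin_zero (b c : ℝ) (h : ∀ t : ℝ, 0 ≤ 2 * t * b + t ^ 2 * c) : b = 0 := by
  have hk : 0 < |c| + 1 := by positivity
  have hck : c ≤ |c| := le_abs_self c
  set k := |c| + 1 with hkd
  have h1 := h (-b / k)
  have h2 : 2 * (-b / k) * b + (-b / k) ^ 2 * c = (b / k) ^ 2 * (c - 2 * k) := by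
    field_simp
    ring
  rw [h2] at h1
  have h3 : c - 2 * k < 0 := by rw [hkd]; linarith [abs_nonneg c]
  have h4 : (b / k) ^ 2 ≤ 0 := by
    by_contra hcon
    push Not at hcon
    have := mul_neg_of_pos_of_neg hcon h3
    linarith
  have h5 : b / k = 0 := by
    have : (b / k) ^ 2 = 0 := le_antisymm h4 (sq_nonneg _)
    exact pow_eq_zero_iff (two_ne_zero) |>.1 this
  rcases div_eq_zero_iff.1 h5 with h6 | h6
  · exact h6
  · linarith

section

variable {n : ℕ} (c : Fin n → Fin n → ℝ)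

/-- the quadratic form, summed over ordered pairs -/
noncomputable def Q (z : Fin n → ℝ) : ℝ := ∑ i, ∑ j, c i j * (z i - z j) ^ 2

lemma Q_continuous : Continuous (Q c) := by
  unfold Q
  refine continuous_finsetSum _ fun i _ => continuous_finsetSum _ fun j _ => ?_
  exact continuous_const.mul (((continuous_apply i).sub (continuous_apply j)).pow 2)

lemma Q_smul (a : ℝ) (z : Fin n → ℝ) : Q c (fun i => a * z i) = a ^ 2 * Q c z := by
  unfold Q
  rw [mul_sum]
  refine sum_congr rfl fun i _ => ?_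
  rw [mul_sum]
  refine sum_congr rfl fun j _ => ?_
  ring

lemma Q_add (y z : Fin n → ℝ) (t : ℝ) : Q c (fun i => y i + t * z i) =
    Q c y + 2 * t * (∑ i, ∑ j, c i j * (y i - y j) * (z i - z j)) + t ^ 2 * Q c z := by
  unfold Q
  rw [mul_sum, mul_sum, ← sum_add_distrib, ← sum_add_distrib]
  refine sum_congr rfl fun i _ => ?_
  rw [mul_sum, mul_sum, ← sum_add_distrib, ← sum_add_distrib]
  refine sum_congr rfl fun j _ => ?_
  ring

variable {c}

lemma swap_eq (hsym : ∀ i j, c i j = c j i) (y z : Fin n → ℝ) :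
    ∑ i, ∑ j, c i j * (y i - y j) * z j = - ∑ i, ∑ j, c i j * (y i - y j) * z i := by
  rw [sum_comm, ← sum_neg_distrib]
  refine sum_congr rfl fun i _ => ?_
  rw [← sum_neg_distrib]
  refine sum_congr rfl fun j _ => ?_
  rw [hsym j i]
  ring

lemma bil_eq (hsym : ∀ i j, c i j = c j i) (y z : Fin n → ℝ) :
    ∑ i, ∑ j, c i j * (y i - y j) * (z i - z j) =
      2 * ∑ i, z i * ∑ j, c i j * (y i - y j) := by
  have h1 : ∑ i, ∑ j, c i j * (y i - y j) * (z i - z j) =
      ∑ i, ∑ j, c i j * (y i - y j) * z i - ∑ i, ∑ j, c i j * (y i - y j) * z j := by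
    rw [← sum_sub_distrib]
    refine sum_congr rfl fun i _ => ?_
    rw [← sum_sub_distrib]
    refine sum_congr rfl fun j _ => ?_
    ring
  rw [h1, swap_eq hsym]
  have h2 : ∑ i, ∑ j, c i j * (y i - y j) * z i = ∑ i, z i * ∑ j, c i j * (y i - y j) := by
    refine sum_congr rfl fun i _ => ?_
    rw [mul_sum]
    exact sum_congr rfl fun j _ => by ring
  rw [h2]
  ring

lemma flow_sum (hsym : ∀ i j, c i j = c j i) (y : Fin n → ℝ) :
    ∑ i, ∑ j, c i j * (y i - y j) = 0 := by
  have h := swap_eq hsym y (fun _ => (1 : ℝ))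
  simp only [mul_one] at h
  linarith

theorem exists_eig (hn : 2 ≤ n) (hsym : ∀ i j, c i j = c j i) (hc0 : ∀ i j, 0 ≤ c i j) :
    ∃ m : ℝ, 0 ≤ m ∧
      (∀ z : Fin n → ℝ, ∑ i, z i = 0 → 2 * m * ∑ i, z i ^ 2 ≤ ∑ i, ∑ j, c i j * (z i - z j) ^ 2) ∧
      ∃ y : Fin n → ℝ, y ≠ 0 ∧ ∑ i, y i = 0 ∧ ∀ i, ∑ j, c i j * (y i - y j) = m * y i := by
  classical
  set K : Set (Fin n → ℝ) := {z | ∑ i, z i = 0 ∧ ∑ i, z i ^ 2 = 1} with hK
  have hclosed : IsClosed K := by
    have h1 : IsClosed {z : Fin n → ℝ | ∑ i, z i = 0} :=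
      isClosed_eq (continuous_finsetSum _ fun i _ => continuous_apply i) continuous_const
    have h2 : IsClosed {z : Fin n → ℝ | ∑ i, z i ^ 2 = 1} :=
      isClosed_eq (continuous_finsetSum _ fun i _ => (continuous_apply i).pow 2) continuous_const
    exact h1.inter h2
  have hsub : K ⊆ Set.Icc (fun _ => (-1 : ℝ)) (fun _ => (1 : ℝ)) := by
    intro z hz
    have hz2 : ∀ i, z i ^ 2 ≤ 1 := fun i => by
      rw [← hz.2]
      exact single_le_sum (f := fun i => z i ^ 2) (fun i _ => sq_nonneg (z i)) (mem_univ i)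
    constructor
    · intro i
      exact (abs_le.1 ((sq_le_one_iff_abs_le_one (z i)).1 (hz2 i))).1
    · intro i
      exact (abs_le.1 ((sq_le_one_iff_abs_le_one (z i)).1 (hz2 i))).2
  have hcomp : IsCompact K := isCompact_Icc.of_isClosed_subset hclosed hsub
  have hne : K.Nonempty := by
    have h0 : 0 < n := by omega
    have h1 : 1 < n := by omega
    have h01 : (⟨0, h0⟩ : Fin n) ≠ ⟨1, h1⟩ := by
      intro h
      have := congrArg Fin.val h
      simp at this
    have hsq : (Real.sqrt (1 / 2)) ^ 2 = 1 / 2 := Real.sq_sqrt (by norm_num)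
    set a := Real.sqrt (1 / 2) with ha
    refine ⟨fun i => if i = ⟨0, h0⟩ then a else if i = ⟨1, h1⟩ then -a else 0, ?_, ?_⟩
    · have : ∀ i : Fin n, (if i = ⟨0, h0⟩ then a else if i = ⟨1, h1⟩ then -a else 0) =
          (if i = ⟨0, h0⟩ then a else 0) + (if i = ⟨1, h1⟩ then -a else 0) := by
        intro i
        by_cases h : i = ⟨0, h0⟩
        · have : i ≠ ⟨1, h1⟩ := fun h' => h01 (h.symm.trans h')
          simp [h, h01]
        · simp [h]
      rw [sum_congr rfl fun i _ => this i, sum_add_distrib, sum_ite_eq', sum_ite_eq']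
      simp
    · have : ∀ i : Fin n, (if i = ⟨0, h0⟩ then a else if i = ⟨1, h1⟩ then -a else 0) ^ 2 =
          (if i = ⟨0, h0⟩ then a ^ 2 else 0) + (if i = ⟨1, h1⟩ then a ^ 2 else 0) := by
        intro i
        by_cases h : i = ⟨0, h0⟩
        · have : i ≠ ⟨1, h1⟩ := fun h' => h01 (h.symm.trans h')
          simp [h, h01]
        · by_cases h' : i = ⟨1, h1⟩
          · simp [h', h01.symm]
          · simp [h, h']
      rw [sum_congr rfl fun i _ => this i, sum_add_distrib, sum_ite_eq', sum_ite_eq']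
      simp only [mem_univ, if_true]
      rw [hsq]
      norm_num
  obtain ⟨y, hyK, hymin⟩ := hcomp.exists_isMinOn hne (Q_continuous c).continuousOn
  have hmin : ∀ z ∈ K, Q c y ≤ Q c z := fun z hz => hymin hz
  have hQ0 : ∀ z, 0 ≤ Q c z := fun z =>
    sum_nonneg fun i _ => sum_nonneg fun j _ => mul_nonneg (hc0 i j) (sq_nonneg _)
  have hall : ∀ z : Fin n → ℝ, ∑ i, z i = 0 → Q c y * ∑ i, z i ^ 2 ≤ Q c z := by
    intro z hz
    by_cases h : ∑ i, z i ^ 2 = 0
    · rw [h, mul_zero]; exact hQ0 z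
    · have hpos : 0 < ∑ i, z i ^ 2 :=
        lt_of_le_of_ne (sum_nonneg fun i _ => sq_nonneg (z i)) (Ne.symm h)
      set S := ∑ i, z i ^ 2 with hS
      set a := (Real.sqrt S)⁻¹ with ha
      have hasq : a ^ 2 = S⁻¹ := by rw [ha, inv_pow, Real.sq_sqrt hpos.le]
      have hmem : (fun i => a * z i) ∈ K := by
        constructor
        · rw [← mul_sum, hz, mul_zero]
        · have : ∀ i, (a * z i) ^ 2 = a ^ 2 * z i ^ 2 := fun i => by ring
          rw [sum_congr rfl fun i _ => this i, ← mul_sum, hasq, ← hS]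
          exact inv_mul_cancel₀ h
      have h1 := hmin _ hmem
      rw [Q_smul, hasq] at h1
      calc Q c y * S ≤ (S⁻¹ * Q c z) * S := mul_le_mul_of_nonneg_right h1 hpos.le
        _ = Q c z := by field_simp
  have hvar : ∀ z : Fin n → ℝ, ∑ i, z i = 0 →
      (2 * ∑ i, z i * ∑ j, c i j * (y i - y j)) - Q c y * ∑ i, y i * z i = 0 := by
    intro z hz
    refine lin_zero _ (Q c z - Q c y * ∑ i, z i ^ 2) fun t => ?_
    have h1 := hall (fun i => y i + t * z i) (by
      rw [sum_add_distrib, ← mul_sum, hyK.1, hz]; ring)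
    rw [Q_add, bil_eq hsym] at h1
    have h2 : ∑ i, (y i + t * z i) ^ 2 = 1 + 2 * t * (∑ i, y i * z i) + t ^ 2 * ∑ i, z i ^ 2 := by
      rw [← hyK.2, mul_sum, mul_sum, ← sum_add_distrib, ← sum_add_distrib]
      exact sum_congr rfl fun i _ => by ring
    rw [h2] at h1
    linarith
  have hD : ∀ i, 2 * (∑ j, c i j * (y i - y j)) - Q c y * y i = 0 := by
    have hs : ∑ i, (2 * (∑ j, c i j * (y i - y j)) - Q c y * y i) = 0 := by
      rw [sum_sub_distrib, ← mul_sum, ← mul_sum, flow_sum hsym, hyK.1]; ring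
    have h1 := hvar (fun i => 2 * (∑ j, c i j * (y i - y j)) - Q c y * y i) hs
    have h2 : ∑ i, (2 * (∑ j, c i j * (y i - y j)) - Q c y * y i) ^ 2 = 0 := by
      rw [← h1, mul_sum, mul_sum, ← sum_sub_distrib]
      exact sum_congr rfl fun i _ => by ring
    intro i
    have := (sum_eq_zero_iff_of_nonneg fun i _ => sq_nonneg _).1 h2 i (mem_univ i)
    exact pow_eq_zero_iff (two_ne_zero) |>.1 this
  refine ⟨Q c y / 2, by linarith [hQ0 y], fun z hz => ?_, y, ?_, hyK.1, fun i => ?_⟩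
  · have := hall z hz
    calc 2 * (Q c y / 2) * ∑ i, z i ^ 2 = Q c y * ∑ i, z i ^ 2 := by ring
      _ ≤ Q c z := this
  · rintro rfl
    have := hyK.2
    simp at this
  · have := hD i
    linarith

end

end Pool.Agent.Helper122LS
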