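import Mathlib
import Pool.Agent.Helper122LS.Core
import Pool.Agent.Helper122LS.Eig

/-!
# The Laplacian spread inequality with its equality case for 0/1 weights
-/

set_option autoImplicit false
open Finset

namespace Pool.Agent.Helper122LS

theorem zero_one {n : ℕ} (hn : 2 ≤ n) (g : Fin n → Fin n → Prop) [∀ i j, Decidable (g i j)]
    (hgs : ∀ i j, g i j → g j i) :
    ∃ mu nu : ℝ, 0 ≤ mu ∧ 0 ≤ nu ∧ 1 ≤ mu + nu ∧ (mu + nu = 1 → mu = 0 ∨ nu = 0) ∧
      (∀ z : Fin n → ℝ, ∑ i, z i = 0 →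
        2 * mu * ∑ i, z i ^ 2 ≤ ∑ i, ∑ j, (if g i j then 1 else 0) * (z i - z j) ^ 2) ∧
      (∀ z : Fin n → ℝ, ∑ i, z i = 0 →
        2 * nu * ∑ i, z i ^ 2 ≤ ∑ i, ∑ j, (if g i j then 0 else 1) * (z i - z j) ^ 2) := by
  classical
  let c : Fin n → Fin n → ℝ := fun i j => if g i j then 1 else 0
  let c' : Fin n → Fin n → ℝ := fun i j => if g i j then 0 else 1
  have hcs : ∀ i j, c i j = c j i := by
    intro i j
    have : g i j ↔ g j i := ⟨hgs i j, hgs j i⟩
    show (if g i j then (1 : ℝ) else 0) = if g j i then 1 else 0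
    by_cases h : g i j
    · rw [if_pos h, if_pos (this.1 h)]
    · rw [if_neg h, if_neg fun h' => h (this.2 h')]
  have hcs' : ∀ i j, c' i j = c' j i := by
    intro i j
    have : g i j ↔ g j i := ⟨hgs i j, hgs j i⟩
    show (if g i j then (0 : ℝ) else 1) = if g j i then 0 else 1
    by_cases h : g i j
    · rw [if_pos h, if_pos (this.1 h)]
    · rw [if_neg h, if_neg fun h' => h (this.2 h')]
  have hc0 : ∀ i j, 0 ≤ c i j := by
    intro i j
    show 0 ≤ (if g i j then (1 : ℝ) else 0)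
    split_ifs <;> norm_num
  have hc0' : ∀ i j, 0 ≤ c' i j := by
    intro i j
    show 0 ≤ (if g i j then (0 : ℝ) else 1)
    split_ifs <;> norm_num
  obtain ⟨mu, hmu, hmu1, v, hv0, hvs, hv⟩ := exists_eig hn hcs hc0
  obtain ⟨nu, hnu, hnu1, u, hu0, hus, hu⟩ := exists_eig hn hcs' hc0'
  let N : Fin n → Finset (Fin n) := fun i => univ.filter fun j => j ≠ i ∧ g i j
  let M : Fin n → Finset (Fin n) := fun i => univ.filter fun j => j ≠ i ∧ ¬ g i j
  have memN : ∀ i j, j ∈ N i ↔ j ≠ i ∧ g i j := fun i j => by simp [N]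
  have memM : ∀ i j, j ∈ M i ↔ j ≠ i ∧ ¬ g i j := fun i j => by simp [M]
  have hvN : ∀ i, ∑ j ∈ N i, (v i - v j) = mu * v i := by
    intro i
    rw [← hv i, sum_filter]
    refine sum_congr rfl fun j _ => ?_
    show (if j ≠ i ∧ g i j then v i - v j else 0) = (if g i j then (1 : ℝ) else 0) * (v i - v j)
    by_cases h : j = i
    · subst h; simp
    · by_cases h2 : g i j
      · rw [if_pos ⟨h, h2⟩, if_pos h2, one_mul]
      · rw [if_neg fun h3 => h2 h3.2, if_neg h2, zero_mul]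
  have huM : ∀ i, ∑ j ∈ M i, (u i - u j) = nu * u i := by
    intro i
    rw [← hu i, sum_filter]
    refine sum_congr rfl fun j _ => ?_
    show (if j ≠ i ∧ ¬ g i j then u i - u j else 0) = (if g i j then (0 : ℝ) else 1) * (u i - u j)
    by_cases h : j = i
    · subst h; simp
    · by_cases h2 : g i j
      · rw [if_neg fun h3 => h3.2 h2, if_pos h2, zero_mul]
      · rw [if_pos ⟨h, h2⟩, if_neg h2, one_mul]
  have h1 : ∀ i j, j ∈ M i → i ∈ M j := by
    intro i j h
    rw [memM] at h ⊢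
    exact ⟨h.1.symm, fun h2 => h.2 (hgs _ _ h2)⟩
  have h2 : ∀ i j, j ∈ N i → i ∈ N j := by
    intro i j h
    rw [memN] at h ⊢
    exact ⟨h.1.symm, hgs _ _ h.2⟩
  have h3 : ∀ i j, j ≠ i → j ∈ M i ∨ j ∈ N i := by
    intro i j h
    rw [memM, memN]
    by_cases h2 : g i j
    · exact Or.inr ⟨h, h2⟩
    · exact Or.inl ⟨h, h2⟩
  have h4 : ∀ i, Disjoint (M i) (N i) := by
    intro i
    rw [disjoint_left]
    intro j h1 h2
    rw [memM] at h1
    rw [memN] at h2
    exact h1.2 h2.2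
  have h5 : ∀ i, i ∉ M i := by
    intro i h
    rw [memM] at h
    exact h.1 rfl
  have h6 : ∀ i, i ∉ N i := by
    intro i h
    rw [memN] at h
    exact h.1 rfl
  have hmain := core3 M N h1 h2 h3 h4 h5 h6 u v nu mu hnu hmu huM hvN hu0 hv0 hus hvs
  refine ⟨mu, nu, hmu, hnu, by linarith, fun hsum => ?_, hmu1, hnu1⟩
  by_cases hnu2 : nu < 1
  · by_cases hmu2 : mu < 1
    · have h := core2 M N h1 h2 h3 h4 h5 h6 u v nu mu 1 1 hnu2 hmu2
        (fun i hi => by exact_mod_cast card_pos.2 hi) (fun i hi => by exact_mod_cast card_pos.2 hi)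
        huM hvN hu0 hv0 hus hvs
      have e1 : mu = 1 - nu := by linarith
      subst e1
      left
      nlinarith [sq_nonneg nu, sq_nonneg (1 - nu)]
    · right
      linarith
  · left
    linarith

end Pool.Agent.Helper122LS
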