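import Mathlib
import Pool.Agent.Helper122LS.ZeroOne

/-!
# The weighted Laplacian spread inequality with its equality case
-/

set_option autoImplicit false
open Finset

namespace Pool.Agent.Helper122LS

/-- both sums for a 0/1 weighting -/
theorem sums_zero_one {n : ℕ} (hn : 2 ≤ n) (x y : Fin n → ℝ)
    (hxs : ∑ i, x i = 0) (hys : ∑ i, y i = 0) (hX : 0 < ∑ i, x i ^ 2) (hY : 0 < ∑ i, y i ^ 2)
    (g : Fin n → Fin n → Prop) [∀ i j, Decidable (g i j)] (hgs : ∀ i j, g i j → g j i) :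
    2 ≤ (∑ i, ∑ j, if g i j then (x i - x j) ^ 2 / (∑ i, x i ^ 2) else 0) +
        (∑ i, ∑ j, if g i j then 0 else (y i - y j) ^ 2 / (∑ i, y i ^ 2)) ∧
    ((∑ i, ∑ j, if g i j then (x i - x j) ^ 2 / (∑ i, x i ^ 2) else 0) +
        (∑ i, ∑ j, if g i j then 0 else (y i - y j) ^ 2 / (∑ i, y i ^ 2)) = 2 →
      ((∑ i, ∑ j, if g i j then (x i - x j) ^ 2 / (∑ i, x i ^ 2) else 0) = 0 ∧
        (∑ i, ∑ j, if g i j then 0 else (y i - y j) ^ 2 / (∑ i, y i ^ 2)) = 2) ∨
      ((∑ i, ∑ j, if g i j then (x i - x j) ^ 2 / (∑ i, x i ^ 2) else 0) = 2 ∧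
        (∑ i, ∑ j, if g i j then 0 else (y i - y j) ^ 2 / (∑ i, y i ^ 2)) = 0)) := by
  obtain ⟨mu, nu, hmu, hnu, hsum, heq, h1, h2⟩ := zero_one hn g hgs
  have hA := h1 x hxs
  have hB := h2 y hys
  set X := ∑ i, x i ^ 2 with hXd
  set Y := ∑ i, y i ^ 2 with hYd
  have eA : (∑ i, ∑ j, if g i j then (x i - x j) ^ 2 / X else 0) =
      (∑ i, ∑ j, (if g i j then (1 : ℝ) else 0) * (x i - x j) ^ 2) / X := by
    rw [sum_div]
    refine sum_congr rfl fun i _ => ?_
    rw [sum_div]
    refine sum_congr rfl fun j _ => ?_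
    split_ifs
    · rw [one_mul]
    · rw [zero_mul, zero_div]
  have eB : (∑ i, ∑ j, if g i j then 0 else (y i - y j) ^ 2 / Y) =
      (∑ i, ∑ j, (if g i j then (0 : ℝ) else 1) * (y i - y j) ^ 2) / Y := by
    rw [sum_div]
    refine sum_congr rfl fun i _ => ?_
    rw [sum_div]
    refine sum_congr rfl fun j _ => ?_
    split_ifs
    · rw [zero_mul, zero_div]
    · rw [one_mul]
  have hA' : 2 * mu ≤ ∑ i, ∑ j, if g i j then (x i - x j) ^ 2 / X else 0 := by
    rw [eA, le_div_iff₀ hX]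
    exact hA
  have hB' : 2 * nu ≤ ∑ i, ∑ j, if g i j then 0 else (y i - y j) ^ 2 / Y := by
    rw [eB, le_div_iff₀ hY]
    exact hB
  refine ⟨by linarith, fun h => ?_⟩
  have hs1 : mu + nu = 1 := by linarith
  rcases heq hs1 with h0 | h0
  · left
    constructor <;> linarith
  · right
    constructor <;> linarith

/-- a zero-sum vector with all entries but one equal -/
theorem all_but_one {n : ℕ} (x : Fin n → ℝ)
    (hxs : ∑ i, x i = 0) (hX : 0 < ∑ i, x i ^ 2)
    (i0 j0 : Fin n) (hxe : (x i0 - x j0) ^ 2 = ∑ i, x i ^ 2)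
    (hall' : ∀ k, k ≠ i0 → x k = x j0) : False := by
  have hs1 : ∑ i, x i = (n : ℝ) * x j0 + (x i0 - x j0) := by
    have : ∀ i, x i = x j0 + if i = i0 then (x i0 - x j0) else 0 := by
      intro i
      by_cases h : i = i0
      · rw [if_pos h, h]; ring
      · rw [if_neg h, add_zero]; exact hall' i h
    rw [sum_congr rfl fun i _ => this i, sum_add_distrib, sum_const, card_univ, Fintype.card_fin,
      nsmul_eq_mul, sum_ite_eq']
    simp
  have hs2 : ∑ i, x i ^ 2 = (n : ℝ) * x j0 ^ 2 + (x i0 ^ 2 - x j0 ^ 2) := by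
    have : ∀ i, x i ^ 2 = x j0 ^ 2 + if i = i0 then (x i0 ^ 2 - x j0 ^ 2) else 0 := by
      intro i
      by_cases h : i = i0
      · rw [if_pos h, h]; ring
      · rw [if_neg h, add_zero, hall' i h]
    rw [sum_congr rfl fun i _ => this i, sum_add_distrib, sum_const, card_univ, Fintype.card_fin,
      nsmul_eq_mul, sum_ite_eq']
    simp
  rw [hxs] at hs1
  rw [hs2] at hxe hX
  have hp : x i0 = x j0 - (n : ℝ) * x j0 := by linarith
  rw [hp] at hxe hX
  have h0 : (n : ℝ) * x j0 ^ 2 = 0 := by nlinarith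
  have hX0 : (n : ℝ) * x j0 ^ 2 + ((x j0 - n * x j0) ^ 2 - x j0 ^ 2) = 0 := by
    have : (n : ℝ) * x j0 ^ 2 + ((x j0 - n * x j0) ^ 2 - x j0 ^ 2) =
        ((n : ℝ) - 1) * ((n : ℝ) * x j0 ^ 2) := by ring
    rw [this, h0, mul_zero]
  linarith

/-- there is no configuration with a single nontrivial tie of size one -/
theorem no_single_tie {n : ℕ} (x y : Fin n → ℝ)
    (hxs : ∑ i, x i = 0) (hX : 0 < ∑ i, x i ^ 2)
    (i0 j0 : Fin n) (hxe : (x i0 - x j0) ^ 2 = ∑ i, x i ^ 2) (hye : y i0 ≠ y j0)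
    (hall : ∀ k l, ¬ (k = i0 ∧ l = j0) → ¬ (k = j0 ∧ l = i0) → x k = x l ∨ y k = y l) : False := by
  have hxne : x i0 ≠ x j0 := by
    intro h
    rw [h, sub_self] at hxe
    norm_num at hxe
    linarith
  have hk : ∀ k, k ≠ i0 → k ≠ j0 → (x k = x i0 ∧ y k = y j0) ∨ (x k = x j0 ∧ y k = y i0) := by
    intro k hk1 hk2
    rcases hall k i0 (fun h => hk1 h.1) (fun h => hk2 h.1) with h | h
    · left
      refine ⟨h, ?_⟩
      rcases hall k j0 (fun h => hk1 h.1) (fun h => hk2 h.1) with h' | h'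
      · exact absurd (h.symm.trans h') hxne
      · exact h'
    · right
      refine ⟨?_, h⟩
      rcases hall k j0 (fun h => hk1 h.1) (fun h => hk2 h.1) with h' | h'
      · exact h'
      · exact absurd (h.symm.trans h') hye
  by_cases hP : ∀ k, k ≠ i0 → x k = x j0
  · exact all_but_one x hxs hX i0 j0 hxe hP
  · push Not at hP
    obtain ⟨k1, hk1, hk2⟩ := hP
    have hk3 : k1 ≠ j0 := by
      rintro rfl
      exact hk2 rfl
    have hk4 : x k1 = x i0 ∧ y k1 = y j0 := by
      rcases hk k1 hk1 hk3 with h | h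
      · exact h
      · exact absurd h.1 hk2
    refine all_but_one x hxs hX j0 i0 ?_ fun k hkj => ?_
    · rw [← hxe]; ring
    · by_cases hki : k = i0
      · rw [hki]
      · rcases hk k hki hkj with h | h
        · exact h.1
        · exfalso
          rcases hall k k1 (fun h => hki h.1) (fun h => hkj h.1) with h' | h'
          · exact hxne (hk4.1.symm.trans (h'.symm.trans h.1))
          · exact hye (h.2.symm.trans (h'.trans hk4.2))

theorem equality_case {n : ℕ} (hn : 2 ≤ n) (w : Fin n → Fin n → ℝ)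
    (hw : ∀ i j, 0 ≤ w i j ∧ w i j ≤ 1) (x y : Fin n → ℝ)
    (hxs : ∑ i, x i = 0) (hys : ∑ i, y i = 0) (hx0 : x ≠ 0) (hy0 : y ≠ 0)
    (hle : (∑ i, ∑ j, w i j * (x i - x j) ^ 2) / (2 * ∑ i, x i ^ 2)
      + (∑ i, ∑ j, (1 - w i j) * (y i - y j) ^ 2) / (2 * ∑ i, y i ^ 2) ≤ 1) :
    ((∑ i, ∑ j, w i j * (x i - x j) ^ 2) / (2 * ∑ i, x i ^ 2) = 0 ∧
      (∑ i, ∑ j, (1 - w i j) * (y i - y j) ^ 2) / (2 * ∑ i, y i ^ 2) = 1) ∨
    ((∑ i, ∑ j, w i j * (x i - x j) ^ 2) / (2 * ∑ i, x i ^ 2) = 1 ∧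
      (∑ i, ∑ j, (1 - w i j) * (y i - y j) ^ 2) / (2 * ∑ i, y i ^ 2) = 0) := by
  classical
  have hpos : ∀ z : Fin n → ℝ, z ≠ 0 → 0 < ∑ i, z i ^ 2 := by
    intro z hz
    obtain ⟨i, hi⟩ := Function.ne_iff.1 hz
    have : 0 < z i ^ 2 := by
      have : z i ≠ 0 := hi
      positivity
    exact lt_of_lt_of_le this
      (single_le_sum (f := fun i => z i ^ 2) (fun i _ => sq_nonneg (z i)) (mem_univ i))
  have hX := hpos x hx0
  have hY := hpos y hy0
  obtain ⟨a, ha⟩ : ∃ a : Fin n → Fin n → ℝ, ∀ i j, a i j = (x i - x j) ^ 2 / (∑ i, x i ^ 2) :=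
    ⟨_, fun _ _ => rfl⟩
  obtain ⟨b, hb⟩ : ∃ b : Fin n → Fin n → ℝ, ∀ i j, b i j = (y i - y j) ^ 2 / (∑ i, y i ^ 2) :=
    ⟨_, fun _ _ => rfl⟩
  have ha0 : ∀ i j, 0 ≤ a i j := fun i j => by rw [ha]; positivity
  have hb0 : ∀ i j, 0 ≤ b i j := fun i j => by rw [hb]; positivity
  have has : ∀ i j, a i j = a j i := fun i j => by
    rw [ha, ha, show (x i - x j) ^ 2 = (x j - x i) ^ 2 by ring]
  have hbs : ∀ i j, b i j = b j i := fun i j => by
    rw [hb, hb, show (y i - y j) ^ 2 = (y j - y i) ^ 2 by ring]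
  have hax : ∀ i j, a i j = 0 → x i = x j := by
    intro i j h
    rw [ha, div_eq_zero_iff] at h
    rcases h with h | h
    · exact sub_eq_zero.1 (pow_eq_zero_iff two_ne_zero |>.1 h)
    · exact absurd h hX.ne'
  have hby : ∀ i j, b i j = 0 → y i = y j := by
    intro i j h
    rw [hb, div_eq_zero_iff] at h
    rcases h with h | h
    · exact sub_eq_zero.1 (pow_eq_zero_iff two_ne_zero |>.1 h)
    · exact absurd h hY.ne'
  have key : ∀ g : Fin n → Fin n → Prop, (∀ i j, g i j → g j i) →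
      2 ≤ (∑ i, ∑ j, if g i j then a i j else 0) + (∑ i, ∑ j, if g i j then 0 else b i j) ∧
      ((∑ i, ∑ j, if g i j then a i j else 0) + (∑ i, ∑ j, if g i j then 0 else b i j) = 2 →
        ((∑ i, ∑ j, if g i j then a i j else 0) = 0 ∧
          (∑ i, ∑ j, if g i j then 0 else b i j) = 2) ∨
        ((∑ i, ∑ j, if g i j then a i j else 0) = 2 ∧
          (∑ i, ∑ j, if g i j then 0 else b i j) = 0)) := by
    intro g hg
    have := sums_zero_one hn x y hxs hys hX hY g hg
    simpa only [← ha, ← hb] using this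
  have hcompat : ∀ g : Fin n → Fin n → Prop, (∀ i j, a i j < b i j → g i j) →
      (∀ i j, g i j → a i j ≤ b i j) →
      (∑ i, ∑ j, if g i j then a i j else 0) + (∑ i, ∑ j, if g i j then 0 else b i j) =
        ∑ i, ∑ j, min (a i j) (b i j) := by
    intro g h1 h2
    rw [← sum_add_distrib]
    refine sum_congr rfl fun i _ => ?_
    rw [← sum_add_distrib]
    refine sum_congr rfl fun j _ => ?_
    by_cases h : g i j
    · rw [if_pos h, if_pos h, add_zero, min_eq_left (h2 i j h)]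
    · rw [if_neg h, if_neg h, zero_add, min_eq_right (not_lt.1 fun h' => h (h1 i j h'))]
  have hg0s : ∀ i j, a i j < b i j → a j i < b j i := fun i j h => by rwa [← has, ← hbs]
  have hg1s : ∀ i j, a i j ≤ b i j → a j i ≤ b j i := fun i j h => by rwa [← has, ← hbs]
  have hc0 := hcompat (fun i j => a i j < b i j) (fun _ _ h => h) (fun _ _ h => h.le)
  have hc1 := hcompat (fun i j => a i j ≤ b i j) (fun _ _ h => h.le) (fun _ _ h => h)
  have hk0 := key (fun i j => a i j < b i j) hg0s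
  have hk1 := key (fun i j => a i j ≤ b i j) hg1s
  have hm2 : 2 ≤ ∑ i, ∑ j, min (a i j) (b i j) := by rw [← hc0]; exact hk0.1
  -- the weighted sums
  have eA : (∑ i, ∑ j, w i j * (x i - x j) ^ 2) / (2 * ∑ i, x i ^ 2) =
      (∑ i, ∑ j, w i j * a i j) / 2 := by
    rw [sum_div, sum_div]
    refine sum_congr rfl fun i _ => ?_
    rw [sum_div, sum_div]
    refine sum_congr rfl fun j _ => ?_
    rw [ha]
    field_simp
  have eB : (∑ i, ∑ j, (1 - w i j) * (y i - y j) ^ 2) / (2 * ∑ i, y i ^ 2) =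
      (∑ i, ∑ j, (1 - w i j) * b i j) / 2 := by
    rw [sum_div, sum_div]
    refine sum_congr rfl fun i _ => ?_
    rw [sum_div, sum_div]
    refine sum_congr rfl fun j _ => ?_
    rw [hb]
    field_simp
  rw [eA, eB] at hle
  rw [eA, eB]
  have hterm : ∀ i j, 0 ≤ w i j * a i j + (1 - w i j) * b i j - min (a i j) (b i j) := by
    intro i j
    obtain ⟨h0, h1⟩ := hw i j
    have e1 := mul_le_mul_of_nonneg_left (min_le_left (a i j) (b i j)) h0
    have e2 := mul_le_mul_of_nonneg_left (min_le_right (a i j) (b i j)) (sub_nonneg.2 h1)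
    linarith
  have hsplit : ∑ i, ∑ j, (w i j * a i j + (1 - w i j) * b i j - min (a i j) (b i j)) =
      (∑ i, ∑ j, w i j * a i j) + (∑ i, ∑ j, (1 - w i j) * b i j) -
        ∑ i, ∑ j, min (a i j) (b i j) := by
    rw [← sum_add_distrib, ← sum_sub_distrib]
    refine sum_congr rfl fun i _ => ?_
    rw [← sum_add_distrib, ← sum_sub_distrib]
  have hnn : 0 ≤ ∑ i, ∑ j, (w i j * a i j + (1 - w i j) * b i j - min (a i j) (b i j)) :=
    sum_nonneg fun i _ => sum_nonneg fun j _ => hterm i j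
  have hzero : ∑ i, ∑ j, (w i j * a i j + (1 - w i j) * b i j - min (a i j) (b i j)) = 0 := by
    refine le_antisymm ?_ hnn
    rw [hsplit]
    linarith
  have htz : ∀ i j, w i j * a i j + (1 - w i j) * b i j - min (a i j) (b i j) = 0 := by
    intro i j
    have h1 := (sum_eq_zero_iff_of_nonneg fun i _ => sum_nonneg fun j _ => hterm i j).1 hzero i
      (mem_univ i)
    exact (sum_eq_zero_iff_of_nonneg fun j _ => hterm i j).1 h1 j (mem_univ j)
  have hmin2 : ∑ i, ∑ j, min (a i j) (b i j) = 2 := by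
    rw [hsplit] at hzero
    linarith
  have hAB : (∑ i, ∑ j, w i j * a i j) + (∑ i, ∑ j, (1 - w i j) * b i j) = 2 := by
    rw [hsplit] at hzero
    linarith
  have hw1 : ∀ i j, a i j < b i j → w i j = 1 := by
    intro i j h
    have := htz i j
    rw [min_eq_left h.le] at this
    have h2 : (1 - w i j) * (b i j - a i j) = 0 := by linarith
    rcases mul_eq_zero.1 h2 with h3 | h3 <;> linarith
  have hw0 : ∀ i j, b i j < a i j → w i j = 0 := by
    intro i j h
    have := htz i j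
    rw [min_eq_right h.le] at this
    have h2 : w i j * (a i j - b i j) = 0 := by linarith
    rcases mul_eq_zero.1 h2 with h3 | h3 <;> linarith
  have hfromA : ∀ g : Fin n → Fin n → Prop, (∑ i, ∑ j, if g i j then a i j else 0) = 0 →
      ∀ i j, g i j → a i j = 0 := by
    intro g h i j hij
    have hn0 : ∀ i j, 0 ≤ (if g i j then a i j else 0) := fun i j => by
      split_ifs
      · exact ha0 i j
      · exact le_rfl
    have h1 := (sum_eq_zero_iff_of_nonneg fun i _ => sum_nonneg fun j _ => hn0 i j).1 h i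
      (mem_univ i)
    have h2 := (sum_eq_zero_iff_of_nonneg fun j _ => hn0 i j).1 h1 j (mem_univ j)
    rwa [if_pos hij] at h2
  have hfromB : ∀ g : Fin n → Fin n → Prop, (∑ i, ∑ j, if g i j then 0 else b i j) = 0 →
      ∀ i j, ¬ g i j → b i j = 0 := by
    intro g h i j hij
    have hn0 : ∀ i j, 0 ≤ (if g i j then 0 else b i j) := fun i j => by
      split_ifs
      · exact le_rfl
      · exact hb0 i j
    have h1 := (sum_eq_zero_iff_of_nonneg fun i _ => sum_nonneg fun j _ => hn0 i j).1 h i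
      (mem_univ i)
    have h2 := (sum_eq_zero_iff_of_nonneg fun j _ => hn0 i j).1 h1 j (mem_univ j)
    rwa [if_neg hij] at h2
  rcases hk0.2 (hc0.trans hmin2) with ⟨hA0, -⟩ | ⟨-, hB0⟩
  swap
  · -- `B = 0`
    right
    have hBw : (∑ i, ∑ j, (1 - w i j) * b i j) = 0 := by
      refine sum_eq_zero fun i _ => sum_eq_zero fun j _ => ?_
      by_cases h : a i j < b i j
      · rw [hw1 i j h]; ring
      · rw [hfromB _ hB0 i j h, mul_zero]
    constructor <;> linarith
  have ha_lt := hfromA _ hA0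
  rcases hk1.2 (hc1.trans hmin2) with ⟨hA1, -⟩ | ⟨hA1, hB1⟩
  · -- `A = 0`
    left
    have hAw : (∑ i, ∑ j, w i j * a i j) = 0 := by
      refine sum_eq_zero fun i _ => sum_eq_zero fun j _ => ?_
      by_cases h : a i j ≤ b i j
      · rw [hfromA _ hA1 i j h, mul_zero]
      · rw [hw0 i j (not_le.1 h), zero_mul]
    constructor <;> linarith
  -- the remaining case is impossible
  exfalso
  obtain ⟨i0, j0, hij, hne0⟩ : ∃ i0 j0, a i0 j0 ≤ b i0 j0 ∧ a i0 j0 ≠ 0 := by
    by_contra hcon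
    push Not at hcon
    have : (∑ i, ∑ j, if a i j ≤ b i j then a i j else 0) = 0 := by
      refine sum_eq_zero fun i _ => sum_eq_zero fun j _ => ?_
      split_ifs with h
      · exact hcon i j h
      · rfl
    rw [this] at hA1
    norm_num at hA1
  have hijeq : a i0 j0 = b i0 j0 := by
    rcases lt_or_eq_of_le hij with h | h
    · exact absurd (ha_lt i0 j0 h) hne0
    · exact h
  have hineq : i0 ≠ j0 := by
    rintro rfl
    apply hne0
    rw [ha]
    simp
  have hges : ∀ i j, (a i j < b i j ∨ (i = i0 ∧ j = j0) ∨ (i = j0 ∧ j = i0)) →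
      (a j i < b j i ∨ (j = i0 ∧ i = j0) ∨ (j = j0 ∧ i = i0)) := by
    rintro i j (h | h | h)
    · exact Or.inl (hg0s i j h)
    · exact Or.inr (Or.inr ⟨h.2, h.1⟩)
    · exact Or.inr (Or.inl ⟨h.2, h.1⟩)
  have hce := hcompat (fun i j => a i j < b i j ∨ (i = i0 ∧ j = j0) ∨ (i = j0 ∧ j = i0))
    (fun _ _ h => Or.inl h) (by
      rintro i j (h | ⟨rfl, rfl⟩ | ⟨rfl, rfl⟩)
      · exact h.le
      · exact hijeq.le
      · rw [has, hbs]; exact hijeq.le)
  have hke := key (fun i j => a i j < b i j ∨ (i = i0 ∧ j = j0) ∨ (i = j0 ∧ j = i0)) hges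
  rcases hke.2 (hce.trans hmin2) with ⟨hAe, -⟩ | ⟨hAe, hBe⟩
  · exact hne0 (hfromA _ hAe i0 j0 (Or.inr (Or.inl ⟨rfl, rfl⟩)))
  have hB_out := hfromB _ hBe
  have hae1 : a i0 j0 = 1 := by
    have h1 : (2 : ℝ) =
        ∑ i, ∑ j, ((if i = i0 then (if j = j0 then a i0 j0 else 0) else 0) +
          (if i = j0 then (if j = i0 then a i0 j0 else 0) else 0)) := by
      refine hAe.symm.trans ?_
      refine sum_congr rfl fun i _ => sum_congr rfl fun j _ => ?_
      by_cases h1 : i = i0 ∧ j = j0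
      · obtain ⟨rfl, rfl⟩ := h1
        rw [if_pos (Or.inr (Or.inl ⟨rfl, rfl⟩)), if_pos rfl, if_pos rfl, if_neg hineq, add_zero]
      · by_cases h2 : i = j0 ∧ j = i0
        · obtain ⟨rfl, rfl⟩ := h2
          rw [if_pos (Or.inr (Or.inr ⟨rfl, rfl⟩)), if_neg (fun h => hineq h.symm), if_pos rfl,
            if_pos rfl, zero_add, has]
        · have e1 : (if i = i0 then (if j = j0 then a i0 j0 else 0) else 0) = 0 := by
            by_cases h3 : i = i0
            · rw [if_pos h3, if_neg fun h4 => h1 ⟨h3, h4⟩]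
            · rw [if_neg h3]
          have e2 : (if i = j0 then (if j = i0 then a i0 j0 else 0) else 0) = 0 := by
            by_cases h3 : i = j0
            · rw [if_pos h3, if_neg fun h4 => h2 ⟨h3, h4⟩]
            · rw [if_neg h3]
          rw [e1, e2, add_zero]
          by_cases h3 : a i j < b i j
          · rw [if_pos (Or.inl h3), ha_lt i j h3]
          · rw [if_neg]
            rintro (h4 | h4 | h4)
            · exact h3 h4
            · exact h1 h4
            · exact h2 h4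
    simp only [sum_add_distrib] at h1
    have h2 : (∑ i, ∑ j, if i = i0 then (if j = j0 then a i0 j0 else 0) else 0) = a i0 j0 := by
      rw [sum_eq_single i0]
      · simp
      · intro i _ hi
        simp [hi]
      · simp
    have h3 : (∑ i, ∑ j, if i = j0 then (if j = i0 then a i0 j0 else 0) else 0) = a i0 j0 := by
      rw [sum_eq_single j0]
      · simp
      · intro i _ hi
        simp [hi]
      · simp
    rw [h2, h3] at h1
    linarith
  refine no_single_tie x y hxs hX i0 j0 ?_ ?_ ?_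
  · rw [ha, div_eq_one_iff_eq hX.ne'] at hae1
    exact hae1
  · intro h
    apply hne0
    rw [hijeq, hb, h]
    simp
  · intro k l h1 h2
    by_cases h3 : a k l < b k l
    · exact Or.inl (hax k l (ha_lt k l h3))
    · refine Or.inr (hby k l (hB_out k l ?_))
      rintro (h4 | h4 | h4)
      · exact h3 h4
      · exact h1 h4
      · exact h2 h4

end Pool.Agent.Helper122LS
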